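import Pool.Agent.H65.EN.Targets
import Pool.Agent.H31.LV.Basic
import Pool.Agent.H33.LVP.wPV

/-!
# Row EXV of the board enx: the functional as a sum over the shifts
-/

set_option autoImplicit false

open Finset MeasureTheory

namespace Pool.Agent.H36.EN

open Pool.Agent.H24.CL Pool.Agent.H24.LV Pool.Agent.H31.LV Pool.Agent.H50.LV Pool.Agent.H65.EN

private lemma refl (N : ℕ) (g : ℕ → ℂ) :
    ∑ h ∈ Ico 1 (N + 1), g (N - h) = ∑ j ∈ range N, g j := by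
  rw [Finset.sum_Ico_eq_sum_range, Nat.add_sub_cancel, ← Finset.sum_range_reflect g N]
  refine Finset.sum_congr rfl fun j _ => ?_
  congr 1
  omega

/-- the square of a sum -/
private lemma sqsum (a : ℕ → ℂ) (N : ℕ) : ‖∑ n ∈ range N, a n‖ ^ 2 = ∑ n ∈ range N, ‖a n‖ ^ 2 +
    2 * (∑ h ∈ Ico 1 N, ∑ n ∈ range (N - h), a (n + h) * (starRingEnd ℂ) (a n)).re := by
  induction N with
  | zero => simp
  | succ N ih =>
    have e1 : ∑ h ∈ Ico 1 (N + 1), ∑ n ∈ range (N + 1 - h), a (n + h) * (starRingEnd ℂ) (a n) =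
        ∑ h ∈ Ico 1 N, ∑ n ∈ range (N - h), a (n + h) * (starRingEnd ℂ) (a n) +
          a N * (starRingEnd ℂ) (∑ n ∈ range N, a n) := by
      have e2 : ∀ h ∈ Ico 1 (N + 1), ∑ n ∈ range (N + 1 - h), a (n + h) * (starRingEnd ℂ) (a n) =
          ∑ n ∈ range (N - h), a (n + h) * (starRingEnd ℂ) (a n) +
            a N * (starRingEnd ℂ) (a (N - h)) := by
        intro h hh
        rw [Finset.mem_Ico] at hh
        have e3 : N + 1 - h = (N - h) + 1 := by omega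
        rw [e3, Finset.sum_range_succ]
        congr 3
        omega
      rw [Finset.sum_congr rfl e2, Finset.sum_add_distrib]
      congr 1
      · rcases Nat.eq_zero_or_pos N with h0 | h0
        · subst h0
          simp
        · rw [Finset.sum_Ico_succ_top h0]
          simp
      · rw [← Finset.mul_sum, map_sum, refl N (fun j => (starRingEnd ℂ) (a j))]
    rw [e1, Complex.add_re, Finset.sum_range_succ, Finset.sum_range_succ, Complex.sq_norm,
      Complex.normSq_add, ← Complex.sq_norm, ih, ← Complex.sq_norm]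
    have e4 : (∑ n ∈ range N, a n) * (starRingEnd ℂ) (a N) =
        (starRingEnd ℂ) (a N * (starRingEnd ℂ) (∑ n ∈ range N, a n)) := by
      rw [map_mul, Complex.conj_conj, mul_comm]
    rw [e4, Complex.conj_re]
    ring

private lemma per (q : ℕ) (g : ℤ → ℂ) (hg : ∀ z, g (z + q) = g z) (n : ℕ) :
    ∑ r ∈ range q, g ((n : ℤ) + r) = ∑ r ∈ range q, g r := by
  induction n with
  | zero => simp
  | succ n ih =>
    rw [← ih]
    have h1 := Finset.sum_range_succ (fun r : ℕ => g ((n : ℤ) + r)) q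
    have h2 := Finset.sum_range_succ' (fun r : ℕ => g ((n : ℤ) + r)) q
    rw [h1, hg] at h2
    have h3 : ∑ r ∈ range q, g (((n + 1 : ℕ) : ℤ) + r) =
        ∑ r ∈ range q, g ((n : ℤ) + ((r + 1 : ℕ) : ℤ)) := by
      refine Finset.sum_congr rfl fun r _ => ?_
      congr 1
      push_cast
      ring
    rw [h3]
    rw [Nat.cast_zero, add_zero] at h2
    exact (add_right_cancel h2).symm

private lemma Fz_mod {k : ℕ} (f : Fin k → ℤ) (q : ℕ) (z : ℤ) :
    ∃ t : ℤ, Fz f (z + q) = Fz f z + q * t := by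
  have h : Fz f (z + q) ≡ Fz f z [ZMOD q] := by
    unfold Fz
    refine Int.ModEq.sum fun i _ => ?_
    by_cases hi : i.val = 0
    · rw [if_pos hi, if_pos hi]
    · rw [if_neg hi, if_neg hi]
      refine Int.ModEq.mul_left _ (Int.ModEq.pow _ ?_)
      exact Int.add_modEq_right
  obtain ⟨t, ht⟩ := h.symm.dvd
  exact ⟨t, by linarith⟩

private lemma GF_shift {k : ℕ} (q : ℕ) (hq : 1 ≤ q) (f : Fin k → ℤ) (h n : ℕ) :
    (1 / (q : ℂ)) * ∑ r ∈ range q, ee (((Fz f ((n : ℤ) + h + r) - Fz f ((n : ℤ) + r) : ℤ) : ℝ) / q)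
      = GF q f h := by
  have hq0 : (q : ℝ) ≠ 0 := by exact_mod_cast (by omega : q ≠ 0)
  unfold GF
  congr 1
  have h1 := per q (fun z => ee (((Fz f (z + h) - Fz f z : ℤ) : ℝ) / q)) ?_ n
  · rw [← h1]
    refine Finset.sum_congr rfl fun r _ => ?_
    have e : (n : ℤ) + h + r = (n : ℤ) + r + h := by ring
    rw [e]
  · intro z
    obtain ⟨t1, ht1⟩ := Fz_mod f q z
    obtain ⟨t2, ht2⟩ := Fz_mod f q (z + h)
    have e : z + (q : ℤ) + h = z + h + q := by ring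
    show ee (((Fz f (z + q + h) - Fz f (z + q) : ℤ) : ℝ) / q) = _
    rw [e, ht1, ht2]
    refine ee_congr _ _ (t2 - t1) ?_
    push_cast
    field_simp
    ring

/-- the kernel -/
private lemma KP_sum {k : ℕ} (N : ℕ) (hN : 1 ≤ N) (η : Fin k → ℝ) (τ : ℝ) (h : ℕ) (hh : h ≤ N) :
    ∑ n ∈ range (N - h), ∫ σ in τ..(τ + 1), ee (Ps η ((n : ℝ) + h + σ) - Ps η ((n : ℝ) + σ)) =
      N * KP N η τ h := by
  have hN0 : (N : ℂ) ≠ 0 := by exact_mod_cast (by omega : N ≠ 0)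
  have hc : Continuous (fun y : ℝ => ee (Ps η (y + h) - Ps η y)) := by
    refine continuous_ee.comp ?_
    refine ((Pool.Agent.H33.LVP.continuous_Ps η).comp (by fun_prop)).sub
      (Pool.Agent.H33.LVP.continuous_Ps η)
  have h1 : ∀ n ∈ range (N - h), ∫ σ in τ..(τ + 1),
      ee (Ps η ((n : ℝ) + h + σ) - Ps η ((n : ℝ) + σ)) =
      ∫ y in (τ + (n : ℕ))..(τ + ((n + 1 : ℕ) : ℝ)), ee (Ps η (y + h) - Ps η y) := by
    intro n _
    have h2 := intervalIntegral.integral_comp_add_left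
      (a := τ) (b := τ + 1) (fun y => ee (Ps η (y + h) - Ps η y)) (n : ℝ)
    have e1 : (n : ℝ) + τ = τ + (n : ℕ) := by ring
    have e2 : (n : ℝ) + (τ + 1) = τ + ((n + 1 : ℕ) : ℝ) := by
      push_cast
      ring
    rw [e1, e2] at h2
    rw [← h2]
    refine intervalIntegral.integral_congr fun σ _ => ?_
    have e3 : (n : ℝ) + h + σ = (n : ℝ) + σ + h := by ring
    show ee (Ps η ((n : ℝ) + h + σ) - Ps η ((n : ℝ) + σ)) =
      ee (Ps η ((n : ℝ) + σ + h) - Ps η ((n : ℝ) + σ))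
    rw [e3]
  rw [Finset.sum_congr rfl h1, intervalIntegral.sum_integral_adjacent_intervals
    (a := fun n : ℕ => τ + (n : ℝ)) (fun n _ => hc.intervalIntegrable _ _)]
  unfold KP
  rw [← mul_assoc, mul_one_div_cancel hN0, one_mul]
  have e4 : τ + ((N - h : ℕ) : ℝ) = τ + N - h := by
    rw [Nat.cast_sub hh]
    ring
  have e5 : τ + ((0 : ℕ) : ℝ) = τ := by rw [Nat.cast_zero, add_zero]
  show ∫ x in (τ + ((0 : ℕ) : ℝ))..(τ + ((N - h : ℕ) : ℝ)), ee (Ps η (x + h) - Ps η x) = _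
  rw [e4, e5]

private lemma isum {E : Type} [NormedAddCommGroup E] [NormedSpace ℝ E] (s : Finset ℕ)
    (F : ℕ → ℝ → E) (hF : ∀ i, Continuous (F i)) (a b : ℝ) :
    ∫ σ in a..b, ∑ i ∈ s, F i σ = ∑ i ∈ s, ∫ σ in a..b, F i σ :=
  intervalIntegral.integral_finsetSum fun i _ => (hF i).intervalIntegrable _ _

theorem pf_EXV (h1 : W_PV) (h2 : W_EC) : T_EXV := by
  intro k q N f η τ ξ hq hN
  have hN0 : (0 : ℝ) < N := by exact_mod_cast hN
  have hq0 : (0 : ℝ) < q := by exact_mod_cast hq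
  -- the terms
  obtain ⟨a, ha⟩ : ∃ a : ℕ → ℝ → ℕ → ℂ, a = fun (r : ℕ) (σ : ℝ) (n : ℕ) =>
    ee ((Fz f ((n : ℤ) + (r : ℤ)) : ℝ) / q + ξ * n + Ps η (n + σ)) := ⟨_, rfl⟩
  obtain ⟨Z, hZ⟩ : ∃ Z : ℕ → ℝ → ℂ, Z = fun r σ => ∑ h ∈ Ico 1 N, ∑ n ∈ range (N - h),
    a r σ (n + h) * (starRingEnd ℂ) (a r σ n) := ⟨_, rfl⟩
  have hHH : ∀ (r : ℕ) (σ : ℝ), ‖HH q f N η ξ (r : ℤ) σ‖ ^ 2 =
      (N : ℝ)⁻¹ + 2 * ((N : ℝ)⁻¹) ^ 2 * (Z r σ).re := by
    intro r σ
    have e1 : HH q f N η ξ (r : ℤ) σ = (1 / (N : ℂ)) * ∑ n ∈ range N, a r σ n := by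
      rw [ha]
      rfl
    have e2 : ∑ n ∈ range N, ‖a r σ n‖ ^ 2 = N := by
      rw [ha]
      simp [norm_ee]
    have e3 : ‖(1 / (N : ℂ))‖ = (N : ℝ)⁻¹ := by simp
    rw [e1, norm_mul, mul_pow, sqsum, e2, e3, hZ]
    field_simp
  have hZt : ∀ (r : ℕ) (σ : ℝ), Z r σ = ∑ h ∈ Ico 1 N, ∑ n ∈ range (N - h),
      ee (((Fz f ((n : ℤ) + h + r) - Fz f ((n : ℤ) + r) : ℤ) : ℝ) / q) *
        (ee (ξ * h) * ee (Ps η ((n : ℝ) + h + σ) - Ps η ((n : ℝ) + σ))) := by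
    intro r σ
    rw [hZ, ha]
    refine Finset.sum_congr rfl fun h _ => Finset.sum_congr rfl fun n _ => ?_
    rw [← ee_sub, ← ee_add, ← ee_add]
    congr 1
    push_cast
    ring
  have hav : ∀ σ : ℝ, (1 / (q : ℂ)) * ∑ r ∈ range q, Z r σ = ∑ h ∈ Ico 1 N,
      ∑ n ∈ range (N - h), (GF q f h * ee (ξ * h)) *
        ee (Ps η ((n : ℝ) + h + σ) - Ps η ((n : ℝ) + σ)) := by
    intro σ
    have e1 : ∑ r ∈ range q, Z r σ = ∑ h ∈ Ico 1 N, ∑ n ∈ range (N - h), ∑ r ∈ range q,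
        ee (((Fz f ((n : ℤ) + h + r) - Fz f ((n : ℤ) + r) : ℤ) : ℝ) / q) *
        (ee (ξ * h) * ee (Ps η ((n : ℝ) + h + σ) - Ps η ((n : ℝ) + σ))) := by
      rw [Finset.sum_congr rfl fun r _ => hZt r σ, Finset.sum_comm]
      refine Finset.sum_congr rfl fun h _ => ?_
      rw [Finset.sum_comm]
    rw [e1, Finset.mul_sum]
    refine Finset.sum_congr rfl fun h _ => ?_
    rw [Finset.mul_sum]
    refine Finset.sum_congr rfl fun n _ => ?_
    rw [← Finset.sum_mul, ← mul_assoc, GF_shift q hq f h n, mul_assoc]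
  have hcont : ∀ h n : ℕ, Continuous (fun σ : ℝ =>
      ee (Ps η ((n : ℝ) + h + σ) - Ps η ((n : ℝ) + σ))) := by
    intro h n
    refine continuous_ee.comp ?_
    exact ((Pool.Agent.H33.LVP.continuous_Ps η).comp (by fun_prop)).sub
      ((Pool.Agent.H33.LVP.continuous_Ps η).comp (by fun_prop))
  have hWc : Continuous (fun σ : ℝ => (1 / (q : ℂ)) * ∑ r ∈ range q, Z r σ) := by
    have : (fun σ : ℝ => (1 / (q : ℂ)) * ∑ r ∈ range q, Z r σ) = fun σ : ℝ => ∑ h ∈ Ico 1 N,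
      ∑ n ∈ range (N - h), (GF q f h * ee (ξ * h)) *
        ee (Ps η ((n : ℝ) + h + σ) - Ps η ((n : ℝ) + σ)) := funext hav
    rw [this]
    exact continuous_finsetSum _ fun h _ => continuous_finsetSum _ fun n _ =>
      continuous_const.mul (hcont h n)
  -- the integral
  have hint : ∫ σ in τ..(τ + 1), (1 / (q : ℂ)) * ∑ r ∈ range q, Z r σ =
      N * ∑ h ∈ Ico 1 N, (GF q f h * KP N η τ h) * ee (ξ * h) := by
    rw [intervalIntegral.integral_congr fun σ _ => hav σ]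
    rw [isum (Ico 1 N) (fun (h : ℕ) (σ : ℝ) => ∑ n ∈ range (N - h), (GF q f h * ee (ξ * h)) *
      ee (Ps η ((n : ℝ) + h + σ) - Ps η ((n : ℝ) + σ))) (fun h => continuous_finsetSum _ fun n _ =>
        continuous_const.mul (hcont h n))]
    rw [Finset.mul_sum]
    refine Finset.sum_congr rfl fun h hh => ?_
    rw [Finset.mem_Ico] at hh
    rw [isum (range (N - h)) (fun (n : ℕ) (σ : ℝ) => (GF q f h * ee (ξ * h)) *
      ee (Ps η ((n : ℝ) + h + σ) - Ps η ((n : ℝ) + σ))) (fun n => continuous_const.mul (hcont h n))]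
    have e1 : ∀ n ∈ range (N - h), ∫ σ in τ..(τ + 1), (GF q f h * ee (ξ * h)) *
        ee (Ps η ((n : ℝ) + h + σ) - Ps η ((n : ℝ) + σ)) = (GF q f h * ee (ξ * h)) *
        ∫ σ in τ..(τ + 1), ee (Ps η ((n : ℝ) + h + σ) - Ps η ((n : ℝ) + σ)) := fun n _ =>
      intervalIntegral.integral_const_mul _ _
    rw [Finset.sum_congr rfl e1, ← Finset.mul_sum, KP_sum N hN η τ h hh.2.le]
    ring
  have hVF : VF q f N η τ ξ = ∫ σ in τ..(τ + 1),
      ((N : ℝ)⁻¹ + 2 * ((N : ℝ)⁻¹) ^ 2 * ((1 / (q : ℂ)) * ∑ r ∈ range q, Z r σ).re) := by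
    have e1 : ∀ σ : ℝ, (N : ℝ)⁻¹ + 2 * ((N : ℝ)⁻¹) ^ 2 * ((1 / (q : ℂ)) *
        ∑ r ∈ range q, Z r σ).re = ∑ l ∈ range q, Al q f (l : ℤ) *
          ‖TT N η (ξ + (l : ℝ) / q) σ‖ ^ 2 := by
      intro σ
      rw [← h2 k q N f η ξ σ hq hN, Finset.sum_congr rfl fun r _ => hHH r σ,
        Finset.sum_add_distrib, Finset.sum_const, Finset.card_range, nsmul_eq_mul,
        ← Finset.mul_sum, mul_add]
      have e2 : ((1 / (q : ℂ)) * ∑ r ∈ range q, Z r σ).re =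
          (1 / (q : ℝ)) * ∑ r ∈ range q, (Z r σ).re := by
        have : (1 / (q : ℂ)) = ((1 / (q : ℝ) : ℝ) : ℂ) := by push_cast; rfl
        rw [this, Complex.re_ofReal_mul, Complex.re_sum]
      rw [e2]
      field_simp
    rw [intervalIntegral.integral_congr fun σ _ => e1 σ]
    have hTc : ∀ s : ℝ, Continuous (fun σ : ℝ => ‖TT N η s σ‖ ^ 2) := by
      intro s
      refine Continuous.pow (Continuous.norm ?_) 2
      unfold TT
      refine continuous_const.mul (continuous_finsetSum _ fun n _ => ?_)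
      refine continuous_ee.comp ?_
      refine Continuous.add (by fun_prop) ?_
      exact (Pool.Agent.H33.LVP.continuous_Ps η).comp (by fun_prop)
    rw [isum (range q) (fun (l : ℕ) (σ : ℝ) => Al q f (l : ℤ) *
      ‖TT N η (ξ + (l : ℝ) / q) σ‖ ^ 2) (fun l => continuous_const.mul (hTc _))]
    unfold VF
    refine Finset.sum_congr rfl fun l _ => ?_
    rw [intervalIntegral.integral_const_mul, (h1 k N η τ (ξ + (l : ℝ) / q) hN).tsum_eq]
  have hre : ∫ σ in τ..(τ + 1), ((1 / (q : ℂ)) * ∑ r ∈ range q, Z r σ).re =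
      (∫ σ in τ..(τ + 1), (1 / (q : ℂ)) * ∑ r ∈ range q, Z r σ).re :=
    Complex.reCLM.intervalIntegral_comp_comm (hWc.intervalIntegrable _ _)
  have hfin : VF q f N η τ ξ = (N : ℝ)⁻¹ + 2 * ((N : ℝ)⁻¹) ^ 2 *
      ((N : ℂ) * ∑ h ∈ Ico 1 N, (GF q f h * KP N η τ h) * ee (ξ * h)).re := by
    have e2 := intervalIntegral.integral_add (a := τ) (b := τ + 1) (μ := volume)
      (f := fun _ : ℝ => (N : ℝ)⁻¹)
      (g := fun σ : ℝ => 2 * ((N : ℝ)⁻¹) ^ 2 * ((1 / (q : ℂ)) * ∑ r ∈ range q, Z r σ).re)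
      (continuous_const.intervalIntegrable _ _)
      ((continuous_const.mul (Complex.continuous_re.comp hWc)).intervalIntegrable _ _)
    rw [hVF, e2, intervalIntegral.integral_const_mul, hre, hint, intervalIntegral.integral_const]
    simp
  rw [hfin, ← Complex.ofReal_natCast, Complex.re_ofReal_mul]
  have e9 : (∑ h ∈ Ico 1 N, (GF q f h * KP N η τ h) * ee (ξ * h)).re ≤
      ‖∑ h ∈ Ico 1 N, (GF q f h * KP N η τ h) * ee (ξ * h)‖ := Complex.re_le_norm _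
  have e10 : (N : ℝ) * ((N : ℝ)⁻¹ + 2 * ((N : ℝ)⁻¹) ^ 2 * ((N : ℝ) *
      (∑ h ∈ Ico 1 N, (GF q f h * KP N η τ h) * ee (ξ * h)).re)) =
      1 + 2 * (∑ h ∈ Ico 1 N, (GF q f h * KP N η τ h) * ee (ξ * h)).re := by
    field_simp
  rw [e10]
  linarith

end Pool.Agent.H36.EN
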